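import Pool.Agent.H429.Final

/-!
# The bifurcation locus in the space of quadratic endomorphisms of the projective plane

Definitions (all in `Pool.Agent.H429.Defs`): `Endo d` is the space of holomorphic self-maps of the
projective plane of algebraic degree `d`, `lyap f` the sum of the Lyapunov exponents of the
equilibrium measure of `f`, and `Bif d` the bifurcation locus, the support of `dd^c lyap`.

The theorem: there is an open set `U` of quadratic maps which meets the bifurcation locus and in
which the stable maps are dense; hence the bifurcation locus is not the closure of its interior.

The maps in `U` are perturbations of `(z, w) ↦ (10⁶ w² - 4000 w + l, 10⁷ (w - z²))`, `|l| ≤ 2`.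
-/

namespace Pool.Agent.Results.MP_9cfccf_an.NotRegularClosed

open MeasureTheory Pool.Agent.H429

/-- Density of stability holds in an open set of quadratic endomorphisms of the projective plane
which meets the bifurcation locus, and the bifurcation locus is not the closure of its interior. -/
theorem result :
    ∃ U : Set (Endo 2), IsOpen U ∧
      (∀ c : Lift 2, toEndo c ∈ U → ∃! μ : Measure P2, IsEquilibrium (selfMap c) μ) ∧
      (Bif 2 ∩ U).Nonempty ∧ interior (Bif 2 ∩ U) = ∅ ∧ Bif 2 ≠ closure (interior (Bif 2)) :=
  final_all

end Pool.Agent.Results.MP_9cfccf_an.NotRegularClosed
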